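import Mathlib

/-!
# The unit circle meets the product of two middle-third Cantor sets in infinitely many points
-/

namespace Pool.Agent.Results.MP_54f706_an.Infinite

open Filter Topology

/-- A curve `y = g x` over `[0, 1]` which crosses the unit square and whose chord slopes all lie
in `[1/3, 1]`. -/
structure Good (g : ℝ → ℝ) : Prop where
  cont : Continuous g
  lower : ∀ a b, 0 ≤ a → a ≤ b → b ≤ 1 → (b - a) / 3 ≤ g b - g a
  upper : ∀ a b, 0 ≤ a → a ≤ b → b ≤ 1 → g b - g a ≤ b - a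
  zero : g 0 ≤ 1
  one : 0 ≤ g 1

/-- Zooming into the subsquare with corner `(i, j) / 3`. -/
lemma Good.zoom {g : ℝ → ℝ} (hg : Good g) {i j : ℝ} (hi : 0 ≤ i) (hi' : i ≤ 2)
    (h0 : 3 * g (i / 3) - j ≤ 1) (h1 : 0 ≤ 3 * g ((i + 1) / 3) - j) :
    Good (fun x => 3 * g ((i + x) / 3) - j) where
  cont := by
    have := hg.cont
    fun_prop
  lower := by
    intro a b ha hab hb
    have := hg.lower ((i + a) / 3) ((i + b) / 3) (by positivity) (by linarith) (by linarith)
    linarith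
  upper := by
    intro a b ha hab hb
    have := hg.upper ((i + a) / 3) ((i + b) / 3) (by positivity) (by linarith) (by linarith)
    linarith
  zero := by simpa using h0
  one := h1

/-- One of the four corner subsquares is crossed. -/
lemma Good.step {g : ℝ → ℝ} (hg : Good g) :
    ∃ i j : ℝ, (i = 0 ∨ i = 2) ∧ (j = 0 ∨ j = 2) ∧ Good (fun x => 3 * g ((i + x) / 3) - j) := by
  have hz := hg.zero
  have ho := hg.one
  have s1 := hg.upper (1 / 3) (2 / 3) (by norm_num) (by norm_num) (by norm_num)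
  have s2 := hg.lower 0 1 le_rfl (by norm_num) le_rfl
  by_cases c1 : g (2 / 3) ≤ 1 / 3
  · exact ⟨2, 0, Or.inr rfl, Or.inl rfl, hg.zoom (by norm_num) le_rfl (by linarith)
      (by norm_num; linarith)⟩
  by_cases c2 : 2 / 3 ≤ g (1 / 3)
  · refine ⟨0, 2, Or.inl rfl, Or.inr rfl, hg.zoom le_rfl (by norm_num) ?_ ?_⟩
    · norm_num; linarith
    · norm_num; linarith
  push Not at c1 c2
  by_cases c3 : g 0 ≤ 1 / 3
  · refine ⟨0, 0, Or.inl rfl, Or.inl rfl, hg.zoom le_rfl (by norm_num) ?_ ?_⟩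
    · norm_num; linarith
    · norm_num; linarith
  push Not at c3
  refine ⟨2, 2, Or.inr rfl, Or.inr rfl, hg.zoom (by norm_num) le_rfl ?_ ?_⟩
  · linarith
  · norm_num; linarith

lemma Good.pre (n : ℕ) : ∀ {g : ℝ → ℝ}, Good g →
    ∃ x, x ∈ preCantorSet n ∧ g x ∈ preCantorSet n := by
  induction n with
  | zero =>
    intro g hg
    have hz := hg.zero
    have ho := hg.one
    have s1 := hg.upper 0 1 le_rfl (by norm_num) le_rfl
    simp only [preCantorSet_zero]
    by_cases h : 0 ≤ g 0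
    · exact ⟨0, ⟨le_rfl, by norm_num⟩, h, hz⟩
    · push Not at h
      exact ⟨1, ⟨by norm_num, le_rfl⟩, ho, by linarith⟩
  | succ n ih =>
    intro g hg
    obtain ⟨i, j, hi, hj, hG⟩ := hg.step
    obtain ⟨x, hx, hgx⟩ := ih hG
    refine ⟨(i + x) / 3, ?_, ?_⟩
    · rw [preCantorSet_succ]
      rcases hi with rfl | rfl
      · left; exact ⟨x, hx, by simp⟩
      · right; exact ⟨x, hx, rfl⟩
    · rw [preCantorSet_succ]
      rcases hj with rfl | rfl
      · left; exact ⟨_, hgx, by ring⟩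
      · right; exact ⟨_, hgx, by ring⟩

/-- A good curve meets the product of the two Cantor sets. -/
lemma Good.exists_mem {g : ℝ → ℝ} (hg : Good g) : ∃ x, x ∈ cantorSet ∧ g x ∈ cantorSet := by
  have hcl : ∀ n, IsClosed {x | x ∈ preCantorSet n ∧ g x ∈ preCantorSet n} := fun n =>
    (isClosed_preCantorSet n).inter ((isClosed_preCantorSet n).preimage hg.cont)
  have h := IsCompact.nonempty_iInter_of_sequence_nonempty_isCompact_isClosed
    (fun n => {x | x ∈ preCantorSet n ∧ g x ∈ preCantorSet n})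
    (fun n x hx => ⟨preCantorSet_antitone (Nat.le_succ n) hx.1,
      preCantorSet_antitone (Nat.le_succ n) hx.2⟩)
    (fun n => hg.pre n)
    (isCompact_Icc.of_isClosed_subset (hcl 0) (fun x hx => by
      have := hx.1; rw [preCantorSet_zero] at this; exact this))
    hcl
  obtain ⟨x, hx⟩ := h
  rw [Set.mem_iInter] at hx
  exact ⟨x, Set.mem_iInter.mpr fun n => (hx n).1, Set.mem_iInter.mpr fun n => (hx n).2⟩

lemma div_three_mem {x : ℝ} (hx : x ∈ cantorSet) : x / 3 ∈ cantorSet := by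
  rw [cantorSet_eq_union_halves]
  left
  exact ⟨x, hx, rfl⟩

lemma two_add_div_three_mem {x : ℝ} (hx : x ∈ cantorSet) : (2 + x) / 3 ∈ cantorSet := by
  rw [cantorSet_eq_union_halves]
  right
  exact ⟨x, hx, rfl⟩

lemma div_pow_mem {x : ℝ} (hx : x ∈ cantorSet) (n : ℕ) : x / 3 ^ n ∈ cantorSet := by
  induction n with
  | zero => simpa using hx
  | succ n ih =>
    have := div_three_mem ih
    rw [pow_succ, ← div_div]
    exact this

lemma one_sub_mem {x : ℝ} (hx : x ∈ cantorSet) : 1 - x ∈ cantorSet := by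
  have key : ∀ n, ∀ x, x ∈ preCantorSet n → 1 - x ∈ preCantorSet n := by
    intro n
    induction n with
    | zero =>
      intro x hx
      simp only [preCantorSet_zero, Set.mem_Icc] at hx ⊢
      constructor <;> linarith [hx.1, hx.2]
    | succ n ih =>
      intro x hx
      rw [preCantorSet_succ] at hx ⊢
      rcases hx with ⟨y, hy, rfl⟩ | ⟨y, hy, rfl⟩
      · right; exact ⟨1 - y, ih y hy, by ring⟩
      · left; exact ⟨1 - y, ih y hy, by ring⟩
  rw [cantorSet, Set.mem_iInter] at hx ⊢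
  exact fun n => key n x (hx n)

/-- The rescaled circle near `(1, 0)`: the curve `V ^ 2 = 2 U - h U ^ 2`. -/
noncomputable def U (h V : ℝ) : ℝ := (1 - √(1 - h * V ^ 2)) / h

lemma U_eq {h : ℝ} (h0 : 0 < h) {V : ℝ} (hV : h * V ^ 2 ≤ 1) :
    h * U h V ^ 2 - 2 * U h V + V ^ 2 = 0 := by
  have h1 : √(1 - h * V ^ 2) ^ 2 = 1 - h * V ^ 2 := Real.sq_sqrt (by linarith)
  unfold U
  field_simp
  nlinarith

lemma good_U {h : ℝ} (h0 : 0 < h) (h9 : h ≤ 1 / 9) :
    Good (fun x => 9 * U h ((6 + x) / 9) - 2) := by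
  -- bounds on the square root on the relevant interval
  have hs : ∀ V : ℝ, 2 / 3 ≤ V → V ≤ 7 / 9 →
      7 / 9 ≤ √(1 - h * V ^ 2) ∧ √(1 - h * V ^ 2) ≤ 1 ∧
      √(1 - h * V ^ 2) ^ 2 = 1 - h * V ^ 2 := by
    intro V hV hV'
    have hV2 : V ^ 2 ≤ 49 / 81 := by nlinarith
    have hV0 : 0 ≤ V ^ 2 := sq_nonneg V
    have hhV : h * V ^ 2 ≤ 49 / 729 := by nlinarith
    refine ⟨?_, ?_, Real.sq_sqrt (by linarith)⟩
    · apply Real.le_sqrt_of_sq_le
      norm_num
      linarith
    · rw [Real.sqrt_le_iff]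
      constructor
      · norm_num
      · nlinarith
  have hUv : ∀ V : ℝ, 2 / 3 ≤ V → V ≤ 7 / 9 →
      U h V * (1 + √(1 - h * V ^ 2)) = V ^ 2 := by
    intro V hV hV'
    obtain ⟨_, _, h3⟩ := hs V hV hV'
    unfold U
    field_simp
    nlinarith
  have hdiff : ∀ a b : ℝ, 2 / 3 ≤ a → a ≤ b → b ≤ 7 / 9 →
      (U h b - U h a) * (√(1 - h * a ^ 2) + √(1 - h * b ^ 2)) = (b - a) * (b + a) := by
    intro a b ha hab hb
    obtain ⟨_, _, h3⟩ := hs a ha (by linarith)
    obtain ⟨_, _, h4⟩ := hs b (by linarith) hb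
    unfold U
    field_simp
    nlinarith
  refine ⟨?_, ?_, ?_, ?_, ?_⟩
  · unfold U
    fun_prop (disch := exact h0.ne')
  · intro a b ha hab hb
    have e := hdiff ((6 + a) / 9) ((6 + b) / 9) (by linarith) (by linarith) (by linarith)
    obtain ⟨p1, p2, _⟩ := hs ((6 + a) / 9) (by linarith) (by linarith)
    obtain ⟨q1, q2, _⟩ := hs ((6 + b) / 9) (by linarith) (by linarith)
    set A := √(1 - h * ((6 + a) / 9) ^ 2)
    set B := √(1 - h * ((6 + b) / 9) ^ 2)
    set D := U h ((6 + b) / 9) - U h ((6 + a) / 9) with hD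
    have hD0 : 0 ≤ D := by
      by_contra hneg
      push Not at hneg
      nlinarith
    nlinarith
  · intro a b ha hab hb
    have e := hdiff ((6 + a) / 9) ((6 + b) / 9) (by linarith) (by linarith) (by linarith)
    obtain ⟨p1, p2, _⟩ := hs ((6 + a) / 9) (by linarith) (by linarith)
    obtain ⟨q1, q2, _⟩ := hs ((6 + b) / 9) (by linarith) (by linarith)
    set A := √(1 - h * ((6 + a) / 9) ^ 2)
    set B := √(1 - h * ((6 + b) / 9) ^ 2)
    set D := U h ((6 + b) / 9) - U h ((6 + a) / 9) with hD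
    have hD0 : 0 ≤ D := by
      by_contra hneg
      push Not at hneg
      nlinarith
    nlinarith
  · have e := hUv ((6 + 0) / 9) (by norm_num) (by norm_num)
    obtain ⟨p1, p2, _⟩ := hs ((6 + 0) / 9) (by norm_num) (by norm_num)
    nlinarith
  · have e := hUv ((6 + 1) / 9) (by norm_num) (by norm_num)
    obtain ⟨p1, p2, _⟩ := hs ((6 + 1) / 9) (by norm_num) (by norm_num)
    nlinarith

/-- The set `E`, the intersection of the unit circle with `C × C`. -/
def E : Set (ℝ × ℝ) := {p | p.1 ^ 2 + p.2 ^ 2 = 1 ∧ p.1 ∈ cantorSet ∧ p.2 ∈ cantorSet}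

lemma exists_point (n : ℕ) :
    ∃ p ∈ E, 2 / 3 / 3 ^ (n + 1) ≤ p.2 ∧ p.2 ≤ 7 / 9 / 3 ^ (n + 1) := by
  set h : ℝ := 1 / 9 ^ (n + 1) with hh
  have h0 : 0 < h := by positivity
  have h9 : h ≤ 1 / 9 := by
    rw [hh]
    apply one_div_le_one_div_of_le (by norm_num)
    rw [pow_succ]
    have : (1 : ℝ) ≤ 9 ^ n := one_le_pow₀ (by norm_num)
    linarith
  obtain ⟨x, hx, hgx⟩ := (good_U h0 h9).exists_mem
  have hx01 := cantorSet_subset_unitInterval hx
  set V : ℝ := (6 + x) / 9 with hV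
  have hVC : V ∈ cantorSet := by
    have := two_add_div_three_mem (div_three_mem hx)
    have e : (2 + x / 3) / 3 = V := by rw [hV]; ring
    rwa [e] at this
  have hUC : U h V ∈ cantorSet := by
    have := div_three_mem (two_add_div_three_mem hgx)
    have e : (2 + (9 * U h ((6 + x) / 9) - 2)) / 3 / 3 = U h V := by rw [hV]; ring
    rwa [e] at this
  have hV1 : 2 / 3 ≤ V := by rw [hV]; linarith [hx01.1]
  have hV2 : V ≤ 7 / 9 := by rw [hV]; linarith [hx01.2]
  have hVsq : h * V ^ 2 ≤ 1 := by nlinarith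
  have hUeq := U_eq h0 hVsq
  have hpos : (0 : ℝ) < 3 ^ (n + 1) := by positivity
  refine ⟨(1 - U h V / 3 ^ (2 * (n + 1)), V / 3 ^ (n + 1)), ⟨?_, ?_, ?_⟩, ?_, ?_⟩
  · have e9 : (3 : ℝ) ^ (2 * (n + 1)) = 9 ^ (n + 1) := by rw [pow_mul]; norm_num
    have e3 : ((3 : ℝ) ^ (n + 1)) ^ 2 = 9 ^ (n + 1) := by rw [← pow_mul, mul_comm, pow_mul]; norm_num
    dsimp only
    rw [e9, div_pow V, e3]
    have e1 : U h V / 9 ^ (n + 1) = h * U h V := by rw [hh]; ring
    have e2 : V ^ 2 / 9 ^ (n + 1) = h * V ^ 2 := by rw [hh]; ring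
    rw [e1, e2]
    linear_combination h * hUeq
  · exact one_sub_mem (div_pow_mem hUC _)
  · exact div_pow_mem hVC _
  · exact div_le_div_of_nonneg_right hV1 hpos.le
  · exact div_le_div_of_nonneg_right hV2 hpos.le

/-- **Main theorem.** The intersection of the unit circle with the product of two middle-third
Cantor sets is infinite. -/
theorem result :
    {p : ℝ × ℝ | p.1 ^ 2 + p.2 ^ 2 = 1 ∧ p.1 ∈ cantorSet ∧ p.2 ∈ cantorSet}.Infinite := by
  choose f hf hf1 hf2 using exists_point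
  have hanti : StrictAnti (fun n => (f n).2) := by
    apply strictAnti_nat_of_succ_lt
    intro n
    have h1 := hf2 (n + 1)
    have h2 := hf1 n
    have hpos : (0 : ℝ) < 3 ^ (n + 1) := by positivity
    have h3 : (7 : ℝ) / 9 / 3 ^ (n + 1 + 1) < 2 / 3 / 3 ^ (n + 1) := by
      rw [pow_succ 3 (n + 1), ← div_div]
      rw [div_right_comm]
      apply div_lt_div_of_pos_right _ hpos
      norm_num
    linarith
  have hinj : Function.Injective f := by
    intro a b hab
    exact hanti.injective (by simp only [hab])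
  exact Set.infinite_of_injective_forall_mem hinj hf

end Pool.Agent.Results.MP_54f706_an.Infinite
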